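import Pool.Agent.Helper13.Ded.Solv

/-!
# Solvable normal subgroups

If `R` is a solvable normal subgroup then the Dedekind inequality for `R ⊔ H` gives it for `H`.
-/

set_option autoImplicit false

open scoped BigOperators
open Pool.Agent.Helper13.Ded

namespace Pool.Agent.Helper37.Rad

section

variable {G : Type*} [Group G] [Finite G]

/-- `G = N H` with `N` abelian and normal. -/
theorem ded_sup_top (N H : Subgroup G) [N.Normal] (hN : ∀ a ∈ N, ∀ b ∈ N, a * b = b * a)
    (hsup : N ⊔ H = ⊤) : Ded H := by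
  have hM : (N ⊓ H).Normal := by
    constructor
    intro x hx g
    have hg : g ∈ ((N ⊔ H : Subgroup G) : Set G) := by rw [hsup]; trivial
    rw [Subgroup.normal_mul] at hg
    obtain ⟨m, hm, h, hh, rfl⟩ := hg
    obtain ⟨hx1, hx2⟩ := hx
    have h1 : h * x * h⁻¹ ∈ N := ‹N.Normal›.conj_mem x hx1 h
    have h2 : m * h * x * (m * h)⁻¹ = h * x * h⁻¹ := by
      have h3 : m * (h * x * h⁻¹) = (h * x * h⁻¹) * m := hN m hm _ h1
      calc m * h * x * (m * h)⁻¹ = m * (h * x * h⁻¹) * m⁻¹ := by group
        _ = h * x * h⁻¹ := by rw [h3]; group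
    change m * h * x * (m * h)⁻¹ ∈ N ⊓ H
    rw [h2]
    exact ⟨h1, H.mul_mem (H.mul_mem hh hx2) (H.inv_mem hh)⟩
  set p := QuotientGroup.mk' (N ⊓ H) with hp
  have hps : Function.Surjective p := QuotientGroup.mk'_surjective _
  have hpk : p.ker = N ⊓ H := QuotientGroup.ker_mk' _
  have hn : (N.map p).Normal := Subgroup.Normal.map inferInstance p hps
  have h1 : Ded (H.map p) := by
    refine ded_compl (N.map p) (H.map p) ?_ ?_ ?_
    · rintro _ ⟨a, ha, rfl⟩ _ ⟨b, hb, rfl⟩
      rw [← map_mul, ← map_mul, hN a ha b hb]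
    · rw [← Subgroup.map_sup, hsup, ← MonoidHom.range_eq_map, MonoidHom.range_eq_top]
      exact hps
    · rw [eq_bot_iff]
      rintro _ ⟨⟨n, hn, rfl⟩, ⟨h, hh, he⟩⟩
      have h2 : h * n⁻¹ ∈ p.ker := by
        rw [MonoidHom.mem_ker, map_mul, map_inv, he, mul_inv_cancel]
      rw [hpk] at h2
      have h3 : n ∈ H := by
        have := H.mul_mem (H.inv_mem h2.2) hh
        simpa using this
      have h4 : n ∈ p.ker := by
        rw [hpk]; exact ⟨hn, h3⟩
      rw [Subgroup.mem_bot]
      exact h4
  have h2 := ded_comap p hps _ h1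
  rwa [Subgroup.comap_map_eq, hpk, sup_eq_left.2 inf_le_right] at h2

/-- One abelian layer. -/
theorem ded_layer (N M H : Subgroup G) [N.Normal] [M.Normal]
    (hab : ∀ a ∈ N, ∀ b ∈ N, a * b * a⁻¹ * b⁻¹ ∈ M) (hMH : M ≤ H) (hsup : N ⊔ H = ⊤) : Ded H := by
  set p := QuotientGroup.mk' M with hp
  have hps : Function.Surjective p := QuotientGroup.mk'_surjective _
  have hpk : p.ker = M := QuotientGroup.ker_mk' _
  have hn : (N.map p).Normal := Subgroup.Normal.map inferInstance p hps
  have h1 : Ded (H.map p) := by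
    refine ded_sup_top (N.map p) (H.map p) ?_ ?_
    · rintro _ ⟨a, ha, rfl⟩ _ ⟨b, hb, rfl⟩
      have h2 : a * b * a⁻¹ * b⁻¹ ∈ p.ker := by rw [hpk]; exact hab a ha b hb
      rw [MonoidHom.mem_ker, map_mul, map_mul, map_mul, map_inv, map_inv] at h2
      have h3 := mul_inv_eq_one.1 h2
      exact mul_inv_eq_iff_eq_mul.1 h3
    · rw [← Subgroup.map_sup, hsup, ← MonoidHom.range_eq_map, MonoidHom.range_eq_top]
      exact hps
  have h2 := ded_comap p hps _ h1
  rwa [Subgroup.comap_map_eq, hpk, sup_eq_left.2 hMH] at h2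

theorem ded_layer' (N M H : Subgroup G) [N.Normal] [M.Normal]
    (hab : ∀ a ∈ N, ∀ b ∈ N, a * b * a⁻¹ * b⁻¹ ∈ M) (h : Ded (N ⊔ H)) : Ded (M ⊔ H) ∨ ¬ M ≤ N := by
  by_cases hMN : M ≤ N
  · left
    have hle : M ⊔ H ≤ N ⊔ H := sup_le_sup_right hMN H
    refine ded_of_chain hle ?_ h
    set K := N ⊔ H with hK
    have i1 : (N.subgroupOf K).Normal := inferInstance
    have i2 : (M.subgroupOf K).Normal := inferInstance
    refine ded_layer (N.subgroupOf K) (M.subgroupOf K) _ ?_ ?_ ?_
    · intro a ha b hb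
      rw [Subgroup.mem_subgroupOf] at ha hb ⊢
      exact hab _ ha _ hb
    · exact Subgroup.comap_mono le_sup_left
    · rw [← Subgroup.subgroupOf_sup le_sup_left hle, Subgroup.subgroupOf_eq_top]
      exact sup_le_sup_left le_sup_right N
  · exact Or.inr hMN

/-- If `R` is a solvable normal subgroup of `G` then the Dedekind inequality for `R ⊔ H` gives it
for `H`. -/
theorem ded_of_solvable_normal (R H : Subgroup G) [R.Normal] [Group.IsSolvable R]
    (h : Ded (R ⊔ H)) : Ded H := by
  have key : ∀ k, Ded ((derivedSeries R k).map R.subtype ⊔ H) := by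
    intro k
    induction k with
    | zero =>
      rw [derivedSeries_zero]
      have : (⊤ : Subgroup R).map R.subtype = R := by
        rw [← MonoidHom.range_eq_map, Subgroup.range_subtype]
      rwa [this]
    | succ k ih =>
      have i1 : ((derivedSeries R k).map R.subtype).Normal := inferInstance
      have i2 : ((derivedSeries R (k + 1)).map R.subtype).Normal := inferInstance
      have h1 := ded_layer' ((derivedSeries R k).map R.subtype)
        ((derivedSeries R (k + 1)).map R.subtype) H (by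
          rintro _ ⟨a, ha, rfl⟩ _ ⟨b, hb, rfl⟩
          refine ⟨a * b * a⁻¹ * b⁻¹, ?_, by simp⟩
          rw [derivedSeries_succ]
          exact Subgroup.commutator_mem_commutator ha hb) ih
      rcases h1 with h1 | h1
      · exact h1
      · exact absurd (Subgroup.map_mono (derivedSeries_antitone R (Nat.le_succ k))) h1
  obtain ⟨k, hk⟩ := (Group.isSolvable_def R).mp inferInstance
  have h1 := key k
  rwa [hk, Subgroup.map_bot, bot_sup_eq] at h1

/-- A surjective homomorphism with solvable kernel. -/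
theorem ded_of_surj_solvable_ker {Q : Type*} [Group Q] [Finite Q] (p : G →* Q)
    (hp : Function.Surjective p) [Group.IsSolvable p.ker] (H : Subgroup G) (h : Ded (H.map p)) :
    Ded H := by
  refine ded_of_solvable_normal p.ker H ?_
  have h2 := ded_comap p hp _ h
  rwa [Subgroup.comap_map_eq, sup_comm] at h2

end

end Pool.Agent.Helper37.Rad
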